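import Pool.Agent.Helper11.T5.Defs
import Pool.Agent.Helper37.T5.Fc

/-!
# T5, block J0: the numbers `m` of hits

`m := C * l / D` (natural division): the bounds `2 Ne (q² ρ^(m+1))` (J6) and
`n₁ (q² ρ^(m+1))` (J7) are at most `exp (-l)` if `ρ ≤ exp (-(c D))` and `c C` is large.
-/

set_option autoImplicit false

namespace Pool.Agent.Helper95.J0

open Real Pool.Agent.Helper5.ET Pool.Agent.Helper27.T5 Pool.Agent.Helper37.T5

/-- powers of `ρ` -/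
theorem pow_num {ρ c D : ℝ} (h0 : 0 ≤ ρ) (hρ : ρ ≤ exp (-(c * D))) (m : ℕ) :
    ρ ^ (m + 1) ≤ exp (-(c * D * ((m : ℝ) + 1))) := by
  refine (pow_le_pow_left₀ h0 hρ (m + 1)).trans (le_of_eq ?_)
  rw [← exp_nat_mul]
  congr 1
  push_cast
  ring

/-- J7, abstract -/
theorem far_num {n1 q : ℕ} {ρ c D A A1 L : ℝ} {m : ℕ} (hn : (n1 : ℝ) ≤ exp A1)
    (hq : (q : ℝ) ≤ exp A) (h0 : 0 ≤ ρ) (hρ : ρ ≤ exp (-(c * D)))
    (hm : A1 + 2 * A + L ≤ c * D * ((m : ℝ) + 1)) :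
    (n1 : ℝ) * ((q : ℝ) ^ 2 * ρ ^ (m + 1)) ≤ exp (-L) := by
  have h1 := pow_num h0 hρ m
  have h2 : (q : ℝ) ^ 2 ≤ exp (2 * A) := by
    refine (pow_le_pow_left₀ (Nat.cast_nonneg _) hq 2).trans (le_of_eq ?_)
    rw [← exp_nat_mul]
    push_cast
    ring_nf
  have h3 : (q : ℝ) ^ 2 * ρ ^ (m + 1) ≤ exp (2 * A) * exp (-(c * D * ((m : ℝ) + 1))) :=
    mul_le_mul h2 h1 (pow_nonneg h0 _) (exp_pos _).le
  have h4 : (n1 : ℝ) * ((q : ℝ) ^ 2 * ρ ^ (m + 1)) ≤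
      exp A1 * (exp (2 * A) * exp (-(c * D * ((m : ℝ) + 1)))) :=
    mul_le_mul hn h3 (mul_nonneg (sq_nonneg _) (pow_nonneg h0 _)) (exp_pos _).le
  refine h4.trans ?_
  rw [← exp_add, ← exp_add, exp_le_exp]
  linarith

/-- J6, abstract -/
theorem mult_num {Ne q : ℕ} {ρ c D A L : ℝ} {m : ℕ} (hNe : (Ne : ℝ) ≤ exp A)
    (hq : (q : ℝ) ≤ exp A) (h0 : 0 ≤ ρ) (hρ : ρ ≤ exp (-(c * D)))
    (hm : 1 + 3 * A + L ≤ c * D * ((m : ℝ) + 1)) :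
    2 * (Ne : ℝ) * ((q : ℝ) ^ 2 * ρ ^ (m + 1)) ≤ exp (-L) := by
  have h2 : ((2 * Ne : ℕ) : ℝ) ≤ exp (1 + A) := by
    rw [exp_add]
    push_cast
    refine mul_le_mul ?_ hNe (Nat.cast_nonneg _) (exp_pos _).le
    have := Real.add_one_le_exp 1
    linarith
  have h := far_num (n1 := 2 * Ne) (m := m) h2 hq h0 hρ (L := L) (by linarith)
  push_cast at h
  exact h

/-- `m = C l / D` is enough -/
theorem le_mul_div {c : ℝ} {C D l : ℕ} (hD : 0 < D) (hc : 0 ≤ c) {B : ℝ} (hB : B ≤ c * C) :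
    B * l ≤ c * D * (((C * l / D : ℕ) : ℝ) + 1) := by
  have h1 : C * l < D * (C * l / D + 1) := Nat.lt_mul_div_succ _ hD
  have h2 : ((C * l : ℕ) : ℝ) ≤ ((D * (C * l / D + 1) : ℕ) : ℝ) := by exact_mod_cast h1.le
  rw [Nat.cast_mul, Nat.cast_mul, Nat.cast_add, Nat.cast_one] at h2
  have h3 := mul_le_mul_of_nonneg_left h2 hc
  have h4 : B * (l : ℝ) ≤ c * C * l := mul_le_mul_of_nonneg_right hB (Nat.cast_nonneg _)
  calc B * (l : ℝ) ≤ c * C * l := h4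
    _ = c * (C * l) := by ring
    _ ≤ c * (D * (((C * l / D : ℕ) : ℝ) + 1)) := h3
    _ = c * D * (((C * l / D : ℕ) : ℝ) + 1) := by ring

/-- size of the modulus of the main level -/
theorem Nj_le_exp (y : ℕ) : (Nj y : ℝ) ≤ exp (14 * y) := by
  have h1 : (Nj y : ℝ) ≤ (1000037 : ℝ) ^ y := by
    exact_mod_cast Pool.Agent.Helper30.ET.Nj_le_pow y
  refine h1.trans ?_
  rw [← Real.exp_log (show (0 : ℝ) < 1000037 by norm_num), ← exp_nat_mul, exp_le_exp]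
  have := mul_le_mul_of_nonneg_left log_pr (Nat.cast_nonneg (α := ℝ) y)
  linarith

theorem ef_le_two {m l : ℕ} (hl : bb 0 ≤ l) : ef m 1 l ≤ 2 * l := by
  have h1 := Pool.Agent.Helper37.T5.ef_le (m := m) (i := 1) (l := l) rfl
  have h2 : 7 * PP m (era l) 1 ≤ W m (era l) 1 := by
    unfold PP
    have := Nat.div_mul_le_self (W m (era l) 1) (2 ^ 9)
    omega
  have h3 : W m (era l) 1 ≤ bb (era l) := by
    refine le_trans ?_ (Pool.Agent.Helper27.T5.W_zero_le m (era l))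
    exact Pool.Agent.Helper27.T5.W_anti (Nat.zero_le 1)
  have h4 := (Pool.Agent.Helper27.T4.era_spec l hl).1
  omega

/-- `Ne` of the main level (`FF m l 0`) -/
theorem Ne_le_exp {m l : ℕ} (hl : bb 0 ≤ l) : (Nj (ef m 1 l) : ℝ) ≤ exp (28 * l) := by
  refine (Nj_le_exp _).trans ?_
  rw [exp_le_exp]
  have h : ((ef m 1 l : ℕ) : ℝ) ≤ 2 * l := by exact_mod_cast ef_le_two (m := m) hl
  linarith

/-- the modulus of one family is at most `Nj` -/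
theorem q_le_Nj (f : Fin 3) (y : ℕ) : pr f ^ av y f ≤ Nj y :=
  Nat.le_of_dvd (Pool.Agent.Helper27.T4.NN_pos pr_prime _)
    (Finset.dvd_prod_of_mem (fun f => pr f ^ av y f) (Finset.mem_univ f))

/-- **J6 with numbers** -/
theorem mult_num_l {m l : ℕ} (hl : bb 0 ≤ l) (f : Fin 3) {C D : ℕ} (hD : 0 < D) {ρ c : ℝ}
    (hc : 0 ≤ c) (h0 : 0 ≤ ρ) (hρ : ρ ≤ exp (-(c * D))) (hC : 86 ≤ c * C) :
    2 * (Nj (ef m 1 l) : ℝ) * (((pr f ^ av (ef m 1 l) f : ℕ) : ℝ) ^ 2 * ρ ^ (C * l / D + 1))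
      ≤ exp (-(l : ℝ)) := by
  have hq : ((pr f ^ av (ef m 1 l) f : ℕ) : ℝ) ≤ exp (28 * l) :=
    le_trans (by exact_mod_cast q_le_Nj f (ef m 1 l)) (Ne_le_exp hl)
  refine mult_num (Ne_le_exp hl) hq h0 hρ ?_
  have h1 := le_mul_div (l := l) hD hc hC
  have h2 : (1 : ℝ) ≤ l := by
    have := (Pool.Agent.Helper27.T4.era_spec l hl).1
    have h3 : 1 ≤ l := by
      have : 0 < bb 0 := by norm_num [bb]
      omega
    exact_mod_cast h3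
  linarith

/-- **J7 with numbers**: `n < n₁ ≤ exp (100 l)` -/
theorem far_num_l {m l n1 : ℕ} (hl : bb 0 ≤ l) (hn : (n1 : ℝ) ≤ exp (100 * l)) (f : Fin 3)
    {C D : ℕ} (hD : 0 < D) {ρ c : ℝ}
    (hc : 0 ≤ c) (h0 : 0 ≤ ρ) (hρ : ρ ≤ exp (-(c * D))) (hC : 157 ≤ c * C) :
    (n1 : ℝ) * (((pr f ^ av (ef m 1 l) f : ℕ) : ℝ) ^ 2 * ρ ^ (C * l / D + 1))
      ≤ exp (-(l : ℝ)) := by
  have hq : ((pr f ^ av (ef m 1 l) f : ℕ) : ℝ) ≤ exp (28 * l) :=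
    le_trans (by exact_mod_cast q_le_Nj f (ef m 1 l)) (Ne_le_exp hl)
  refine far_num hn hq h0 hρ ?_
  have h1 := le_mul_div (l := l) hD hc hC
  linarith

end Pool.Agent.Helper95.J0
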