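import Pool.Agent.Helper3.T5.Defs

/-!
# T5, block J0: J6 (multiplicity of the sums of two codes) and J7 (large distance)

Both are consequences of J4 (level-1 freshness) and J5 (extraction), which enter as hypotheses.
-/

namespace Pool.Agent.Helper95.J0

open Finset Pool.Agent.Helper27.T4 Pool.Agent.Helper22.HW Pool.Agent.Helper22.SL
open Pool.Agent.Helper3.T5

variable {ι κ : Type*} [Fintype ι] [DecidableEq ι] [DecidableEq κ] {M : MP ι κ} {Mk : κ → ℕ}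

theorem cd_lt (hM : M.Ok Mk) (w : κ → ℕ) (x : ι → ℕ) : M.cd hM w x < M.Ne := cv_lt _ _ _ _

theorem cd'_lt (hM : M.Ok Mk) (w : κ → ℕ) (x : ι → ℕ) : M.cd' hM w x < M.Ne' := cv_lt _ _ _ _

theorem Ne'_le (hM : M.Ok Mk) : M.Ne' ≤ M.Ne :=
  Finset.prod_le_prod' fun i _ => Nat.pow_le_pow_right (hM.prime i).pos (hM.ee i)

/-- statement J4 for one set `E` of the second components and one `τ` -/
def J4S (hM : M.Ok Mk) (K : Finset κ) {β : Type*} (E : Finset β) (τ : β → ℕ) (ρ : ℝ) (m : ℕ) :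
    Prop :=
  PrG Mk K (fun w => ∃ T : Finset (((ι → ℕ) × (ι → ℕ)) × β), T.card = m + 1 ∧
    (∀ t ∈ T, t.1.1 ∈ M.X ∧ t.1.2 ∈ M.X' ∧ t.2 ∈ E ∧
      M.cd hM w t.1.1 + M.cd' hM w t.1.2 = τ t.2) ∧ M.Free T)
    ((M.q : ℝ) ^ 2 * ρ ^ (m + 1))

/-- statement J5 for one type of second components -/
def J5S (hM : M.Ok Mk) (β : Type*) : Prop :=
  ∀ (w : κ → ℕ) (n : ℕ) (H : Finset (((ι → ℕ) × (ι → ℕ)) × β)) (Rl m : ℕ),
    (∀ h ∈ H, h.1 ∈ M.prs hM w M.c' n) →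
    (∀ T : Finset (((ι → ℕ) × (ι → ℕ)) × β), T ⊆ H →
      (∀ s ∈ T, ∀ t ∈ T, s.1 = t.1) → T.card ≤ Rl) →
    2 * (M.C * Rl) * m < H.card → ∃ T ⊆ H, T.card = m + 1 ∧ M.Free T

theorem mem_prs (hM : M.Ok Mk) (w : κ → ℕ) (b : ι → ℕ) (n : ℕ) (z : (ι → ℕ) × (ι → ℕ)) :
    z ∈ M.prs hM w b n ↔ z.1 ∈ M.X ∧ z.2 ∈ M.X' ∧
      ∀ i, M.cd hM w z.1 + M.cd' hM w z.2 ≡ n [MOD M.p i ^ b i] := by
  classical
  unfold MP.prs
  rw [mem_filter, mem_product, and_assoc]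

open Classical in
/-- J6 from J4 and J5 -/
theorem mult_of (hM : M.Ok Mk) {K : Finset κ} {ρ : ℝ} (m : ℕ)
    (h4 : ∀ s : ℕ, J4S hM K ({()} : Finset Unit) (fun _ => s) ρ m) (h5 : J5S hM Unit) :
    PrG Mk K (fun w => ∃ s : ℕ, 2 * M.C * m <
      ((M.X ×ˢ M.X').filter (fun z => M.cd hM w z.1 + M.cd' hM w z.2 = s)).card)
      (2 * M.Ne * ((M.q : ℝ) ^ 2 * ρ ^ (m + 1))) := by
  have h := PrG_exists (Mk := Mk) (K := K) (range (2 * M.Ne))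
    (B := fun s w => ∃ T : Finset (((ι → ℕ) × (ι → ℕ)) × Unit), T.card = m + 1 ∧
      (∀ t ∈ T, t.1.1 ∈ M.X ∧ t.1.2 ∈ M.X' ∧ t.2 ∈ ({()} : Finset Unit) ∧
        M.cd hM w t.1.1 + M.cd' hM w t.1.2 = s) ∧ M.Free T)
    (ε := fun _ => (M.q : ℝ) ^ 2 * ρ ^ (m + 1)) (fun s _ => h4 s)
  refine PrG_mono ?_ (le_of_eq ?_) h
  · rintro r - ⟨s, hs⟩
    set w := ext K r with hw
    set S := (M.X ×ˢ M.X').filter (fun z => M.cd hM w z.1 + M.cd' hM w z.2 = s) with hS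
    have hmemS : ∀ z ∈ S, z.1 ∈ M.X ∧ z.2 ∈ M.X' ∧ M.cd hM w z.1 + M.cd' hM w z.2 = s := by
      intro z hz
      rw [hS, mem_filter, mem_product] at hz
      exact ⟨hz.1.1, hz.1.2, hz.2⟩
    set H : Finset (((ι → ℕ) × (ι → ℕ)) × Unit) := S ×ˢ ({()} : Finset Unit) with hH
    have hHc : H.card = S.card := by rw [hH, card_product, card_singleton, mul_one]
    have hHm : ∀ z ∈ H, z.1 ∈ S := fun z hz => (mem_product.1 hz).1
    obtain ⟨T, hT, hTc, hTf⟩ := h5 w s H 1 m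
      (fun z hz => (mem_prs hM w _ _ _).2 ⟨(hmemS _ (hHm z hz)).1, (hmemS _ (hHm z hz)).2.1,
        fun i => by rw [(hmemS _ (hHm z hz)).2.2]⟩)
      (fun T _ hTT => card_le_one.2 fun a ha b hb => Prod.ext (hTT a ha b hb) rfl)
      (by rw [hHc, mul_one]; exact hs)
    have hne : S.Nonempty := card_pos.1 (by omega)
    obtain ⟨z, hz⟩ := hne
    refine ⟨s, ?_, T, hTc, fun t ht => ?_, hTf⟩
    · rw [mem_range, ← (hmemS z hz).2.2]
      have h1 := cd_lt hM w z.1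
      have h2 := cd'_lt hM w z.2
      have h3 := Ne'_le hM
      omega
    · have h1 := hmemS _ (hHm t (hT ht))
      exact ⟨h1.1, h1.2.1, mem_singleton.2 rfl, h1.2.2⟩
  · rw [sum_const, card_range, nsmul_eq_mul]
    push_cast
    ring

open Classical in
/-- J7 from J4 and J5 -/
theorem far_enough_of (hM : M.Ok Mk) {K : Finset κ} (B B' : Finset ℕ)
    (hB : ∀ b ∈ B, M.N0 ∣ b) (hB' : ∀ b ∈ B', M.N0 ∣ b) (Rl n1 : ℕ)
    (hl : ∀ T, ((B ×ˢ B').filter (fun q => q.1 + q.2 = T)).card ≤ Rl) {ρ : ℝ} (m : ℕ)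
    (h4 : ∀ n < n1, J4S hM K
      ((B ×ˢ B').filter (fun q => q.1 + q.2 ≤ n ∧ n < q.1 + q.2 + 2 * M.Ne))
      (fun q => n - (q.1 + q.2)) ρ m) (h5 : J5S hM (ℕ × ℕ)) :
    PrG Mk K (fun w => ∃ n < n1, 2 * (M.C * Rl) * m <
      (((M.X ×ˢ M.X') ×ˢ (B ×ˢ B')).filter
        (fun z => M.cd hM w z.1.1 + M.cd' hM w z.1.2 + (z.2.1 + z.2.2) = n)).card)
      (n1 * ((M.q : ℝ) ^ 2 * ρ ^ (m + 1))) := by
  have h := PrG_exists (Mk := Mk) (K := K) (range n1)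
    (B := fun n w => ∃ T : Finset (((ι → ℕ) × (ι → ℕ)) × (ℕ × ℕ)), T.card = m + 1 ∧
      (∀ t ∈ T, t.1.1 ∈ M.X ∧ t.1.2 ∈ M.X' ∧
        t.2 ∈ ((B ×ˢ B').filter (fun q => q.1 + q.2 ≤ n ∧ n < q.1 + q.2 + 2 * M.Ne)) ∧
        M.cd hM w t.1.1 + M.cd' hM w t.1.2 = n - (t.2.1 + t.2.2)) ∧ M.Free T)
    (ε := fun _ => (M.q : ℝ) ^ 2 * ρ ^ (m + 1)) (fun n hn => h4 n (mem_range.1 hn))
  refine PrG_mono ?_ (le_of_eq ?_) h
  · rintro r - ⟨n, hn, hs⟩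
    set w := ext K r with hw
    set H := ((M.X ×ˢ M.X') ×ˢ (B ×ˢ B')).filter
        (fun z => M.cd hM w z.1.1 + M.cd' hM w z.1.2 + (z.2.1 + z.2.2) = n) with hH
    have hmem : ∀ z ∈ H, z.1.1 ∈ M.X ∧ z.1.2 ∈ M.X' ∧ z.2.1 ∈ B ∧ z.2.2 ∈ B' ∧
        M.cd hM w z.1.1 + M.cd' hM w z.1.2 + (z.2.1 + z.2.2) = n := by
      intro z hz
      rw [hH, mem_filter, mem_product, mem_product, mem_product] at hz
      exact ⟨hz.1.1.1, hz.1.1.2, hz.1.2.1, hz.1.2.2, hz.2⟩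
    obtain ⟨T, hT, hTc, hTf⟩ := h5 w n H Rl m
      (fun z hz => by
        obtain ⟨h1, h2, h3, h4, h5⟩ := hmem z hz
        refine (mem_prs hM w _ _ _).2 ⟨h1, h2, fun i => ?_⟩
        have hd : M.p i ^ M.c' i ∣ z.2.1 + z.2.2 :=
          ((Finset.dvd_prod_of_mem _ (mem_univ i)).trans
            (Nat.dvd_add (hB _ h3) (hB' _ h4)))
        have h6 : M.cd hM w z.1.1 + M.cd' hM w z.1.2 + 0
            ≡ M.cd hM w z.1.1 + M.cd' hM w z.1.2 + (z.2.1 + z.2.2) [MOD M.p i ^ M.c' i] :=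
          Nat.ModEq.add_left _ ((Nat.modEq_zero_iff_dvd.2 hd).symm)
        rw [h5, add_zero] at h6
        exact h6)
      (fun T hTH hTT => by
        rcases T.eq_empty_or_nonempty with he | ⟨t0, ht0⟩
        · subst he; exact Nat.zero_le _
        refine le_trans ?_ (hl (n - (M.cd hM w t0.1.1 + M.cd' hM w t0.1.2)))
        refine card_le_card_of_injOn (fun z => z.2) ?_ ?_
        · intro z hz
          rw [mem_coe] at hz
          obtain ⟨h1, h2, h3, h4, h5⟩ := hmem z (hTH hz)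
          rw [hTT z hz t0 ht0] at h5
          rw [mem_coe, mem_filter, mem_product]
          refine ⟨⟨h3, h4⟩, ?_⟩
          show z.2.1 + z.2.2 = _
          omega
        · intro a ha b hb hab
          exact Prod.ext (hTT a ha b hb) hab)
      hs
    refine ⟨n, mem_range.2 hn, T, hTc, fun t ht => ?_, hTf⟩
    obtain ⟨h1, h2, h3, h4, h5⟩ := hmem t (hT ht)
    have e1 := cd_lt hM w t.1.1
    have e2 := cd'_lt hM w t.1.2
    have e3 := Ne'_le hM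
    refine ⟨h1, h2, ?_, by omega⟩
    rw [mem_filter, mem_product]
    exact ⟨⟨h3, h4⟩, by omega, by omega⟩
  · rw [sum_const, card_range, nsmul_eq_mul]

end Pool.Agent.Helper95.J0
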